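import Pool.Agent.H200Z.Stm

/-! # No intermediate structure between `(ℤ; +)` and `(ℤ; +, C_α)`: languages, and the assembly. -/

set_option autoImplicit false

namespace Pool.Agent.H200Z

open FirstOrder FirstOrder.Language Q200.CircData

universe u v

/-- The function symbol `+`. -/
inductive AddFn : ℕ → Type
  | add : AddFn 2

/-- The relation symbol `C`. -/
inductive CRel : ℕ → Type
  | C : CRel 3

/-- The language with a binary function symbol. -/
def Lg : FirstOrder.Language.{0, 0} := ⟨AddFn, fun _ => Empty⟩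

/-- The language with a binary function symbol and a ternary relation symbol. -/
def Lc : FirstOrder.Language.{0, 0} := ⟨AddFn, CRel⟩

/-- The structure `(ℤ; +)`. -/
@[reducible]
def gStr : Lg.Structure ℤ where
  funMap := fun {_} f v => match f, v with
    | .add, v => v 0 + v 1
  RelMap := fun {_} r _ => r.elim

/-- The structure `(ℤ; +, C_α)`. -/
@[reducible]
def cStr (α : ℝ) : Lc.Structure ℤ where
  funMap := fun {_} f v => match f, v with
    | .add, v => v 0 + v 1
  RelMap := fun {_} r v => match r, v with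
    | .C, v => Cyc α (v 0) (v 1) (v 2)

/-- `s` is definable with parameters in the structure `S`. -/
def Dfn (L : FirstOrder.Language.{u, v}) (S : L.Structure ℤ) (n : ℕ) (s : Set (Fin n → ℤ)) : Prop :=
  @Set.Definable ℤ Set.univ L S (Fin n) s

/-- Z7. Definable sets form a `DS`. Proof: `Set.Definable.inter`, `.compl`, `.preimage_comp`,
`Set.Definable.image_comp...` (or directly with formulas) for the projection; finite sets of parameters. -/
def Z7 : Prop := ∀ (L : FirstOrder.Language.{u, v}) (S : L.Structure ℤ),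
  Dfn L S 3 {v | v 0 + v 1 = v 2} → DS (Dfn L S)

/-- Z8. Every `DS` which contains the cyclic order contains all sets definable in `(ℤ; +, C_α)`. Proof. A
definable set is given by a formula of the language with constants for the parameters. Induction on bounded
formulas; terms are sums of variables and parameters (their graphs are in `D`: `DS.ex`, `DS.add`); the bound
variables are the last coordinates (`Fin.snoc`); compare the induction in `tame_formula`
(Results/MP_66c0d0_lc/TwoCyclicOrdersNIP.lean). One may first replace the parameters by variables: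
`s = {v | φ (v, a)}` for a tuple `a` of parameters and a formula `φ` without parameters; then
`s = {v | ∃ t, t = a ∧ φ (v, t)}`. -/
def Z8 : Prop := ∀ {D : (n : ℕ) → Set (Fin n → ℤ) → Prop} {α : ℝ}, DS D →
  D 3 {v | Cyc α (v 0) (v 1) (v 2)} → ∀ (n : ℕ) (s : Set (Fin n → ℤ)), Dfn Lc (cStr α) n s → D n s

/-- Z9. Sets definable in `(ℤ; +, C_α)` are tame. Proof: this is `tame_formula` of
Results/MP_66c0d0_lc/TwoCyclicOrdersNIP.lean with one irrational (`θ = fun _ : Unit => α`, `p = 0`, `q = 1`,
`r = 1`; `Kron` from `kron_of_indep`); the parameters are integers, and a tame function of `(v, a)` is a tame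
function of `v` for fixed `a` (change the data: the constants of `L` and `F`). -/
def Z9 : Prop := ∀ {α : ℝ}, Irrational α → ∀ (n : ℕ) (s : Set (Fin n → ℤ)), Dfn Lc (cStr α) n s →
  Tame (fun _ : Unit => α) (fun v => v ∈ s)

/-- Z10. Two small facts: sub-progressions, and the graph of the addition is definable. -/
def Z10 : Prop := (∀ {D : (n : ℕ) → Set (Fin n → ℤ) → Prop}, DS D → ∀ (Y : Set ℤ) (N : ℕ) (r : ℤ),
  D1 D Y → D1 D {y | r + N * y ∈ Y}) ∧ Dfn Lg gStr 3 {v | v 0 + v 1 = v 2}

/-- The assembly. -/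
theorem assembly (z1 : Z1) (z2 : Z2) (z3 : Z3) (z4 : Z4) (z5 : Z5) (z6 : Z6) (z7 : Z7.{u, v})
    (z7' : Z7.{0, 0}) (z8 : Z8) (z9 : Z9)
    (hsub : ∀ {D : (n : ℕ) → Set (Fin n → ℤ) → Prop}, DS D → ∀ (Y : Set ℤ) (N : ℕ) (r : ℤ), D1 D Y →
      D1 D {y | r + N * y ∈ Y})
    (hadd : Dfn Lg gStr 3 {v | v 0 + v 1 = v 2})
    {α : ℝ} (hα : Irrational α) (L : FirstOrder.Language.{u, v}) (S : L.Structure ℤ)
    (h1 : ∀ (n : ℕ) (s : Set (Fin n → ℤ)), Dfn Lg gStr n s → Dfn L S n s)
    (h2 : ∀ (n : ℕ) (s : Set (Fin n → ℤ)), Dfn L S n s → Dfn Lc (cStr α) n s) :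
    (∀ (n : ℕ) (s : Set (Fin n → ℤ)), Dfn L S n s → Dfn Lg gStr n s) ∨
      (∀ (n : ℕ) (s : Set (Fin n → ℤ)), Dfn Lc (cStr α) n s → Dfn L S n s) := by
  have hD : DS (Dfn L S) := z7 L S (h1 _ _ hadd)
  have hE : DS (Dfn Lg gStr) := z7' Lg gStr hadd
  have hT : ∀ (n : ℕ) (s : Set (Fin n → ℤ)), Dfn L S n s →
      Tame (fun _ : Unit => α) (fun v => v ∈ s) := fun n s hs => z9 hα n s (h2 n s hs)
  by_cases hall : ∀ Y : Set ℤ, D1 (Dfn L S) Y → EP Y
  · exact Or.inl (z6 hD hE hα hT hall)
  · right
    push Not at hall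
    obtain ⟨Y, hY, hnep⟩ := hall
    rcases z5 hα (hT 1 _ hY) with hep | ⟨N, r, hN, harc, hinf, hinf'⟩
    · exact absurd hep hnep
    · obtain ⟨m, c, l, hm, hl, hl', hO⟩ := z1 hD hα harc (hsub hD Y N r hY) hinf hinf'
      have hβ : Irrational ((m : ℝ) * α) := hα.natCast_mul hm.ne'
      obtain ⟨a, ha, ha', hP⟩ := z2 hD hβ hl hl' hO
      have hC := z3 hD hβ ha ha' hP
      obtain ⟨b, hb, hb', hQ⟩ := z4 hD hα hm hC
      exact z8 hD (z3 hD hα hb hb' hQ)

end Pool.Agent.H200Z
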