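import Mathlib
import Pool.Agent.Q200.CircData

/-! # No intermediate structure between `(ℤ; +)` and `(ℤ; +, C_α)` (MP_340ce7_lc): statements of the lemmas,
with their proofs.

The question is answered in the negative: every structure between them is interdefinable with one of them.
Plan: (Z6) if all sets definable in one variable are eventually periodic, all definable sets are definable in
`(ℤ; +)`; (Z5) otherwise there is a definable set `Y` which is, outside of a finite set, given by the position of
`y α` modulo `1` with respect to finitely many points, infinite and co-infinite; (Z1) - (Z4) then `C_α` is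
definable. Q200/CircData.lean contains the quantifier elimination for `(ℤ; +, C_α)` (`Tame`, `Same`, `evZ`, `evF`,
`evL`, `ev_identity`, `kk_spec`); see Pool/Agent/Results/MP_66c0d0_lc/TwoCyclicOrdersNIP.lean for its use
(`tame_formula`, `kron_of_indep`). -/

set_option autoImplicit false

namespace Pool.Agent.H200Z

open Q200.CircData

/-- A system of definable sets of tuples of integers (with parameters), containing addition. -/
structure DS (D : (n : ℕ) → Set (Fin n → ℤ) → Prop) : Prop where
  inter : ∀ {n : ℕ} {s t : Set (Fin n → ℤ)}, D n s → D n t → D n (s ∩ t)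
  compl : ∀ {n : ℕ} {s : Set (Fin n → ℤ)}, D n s → D n sᶜ
  comap : ∀ {m n : ℕ} (f : Fin m → Fin n) {s : Set (Fin m → ℤ)}, D m s → D n {v | v ∘ f ∈ s}
  ex : ∀ {n : ℕ} {s : Set (Fin (n + 1) → ℤ)}, D (n + 1) s →
    D n {v | ∃ t : ℤ, (Fin.snoc (α := fun _ => ℤ) v t : Fin (n + 1) → ℤ) ∈ s}
  add : D 3 {v | v 0 + v 1 = v 2}
  const : ∀ c : ℤ, D 1 {v | v 0 = c}

/-- the set `Y` of integers is definable -/
def D1 (D : (n : ℕ) → Set (Fin n → ℤ) → Prop) (Y : Set ℤ) : Prop := D 1 {v | v 0 ∈ Y}

/-- the cyclic order `C_α` -/
def Cyc (α : ℝ) (a b c : ℤ) : Prop :=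
  (Int.fract (a * α) < Int.fract (b * α) ∧ Int.fract (b * α) < Int.fract (c * α)) ∨
  (Int.fract (b * α) < Int.fract (c * α) ∧ Int.fract (c * α) < Int.fract (a * α)) ∨
  (Int.fract (c * α) < Int.fract (a * α) ∧ Int.fract (a * α) < Int.fract (b * α))

/-- Outside of a finite set, membership in `Y` depends only on the position of `{y α}` with respect to
finitely many real numbers. -/
def Arc (α : ℝ) (Y : Set ℤ) : Prop :=
  ∃ (C : Finset ℝ) (Z : Finset ℤ), ∀ x ∉ Z, ∀ y ∉ Z,
    (∀ c ∈ C, c < Int.fract ((x : ℝ) * α) ↔ c < Int.fract ((y : ℝ) * α)) → (x ∈ Y ↔ y ∈ Y)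

/-- eventually periodic sets -/
def EP (Y : Set ℤ) : Prop :=
  ∃ (N : ℕ) (Z : Finset ℤ), 0 < N ∧ ∀ x ∉ Z, ∀ y ∉ Z, x ≡ y [ZMOD N] → (x ∈ Y ↔ y ∈ Y)

/-- Z1. From `Y` to a single arc of the rotation by `m α`. -/
def Z1 : Prop := ∀ {D : (n : ℕ) → Set (Fin n → ℤ) → Prop} {α : ℝ} {Y : Set ℤ}, DS D → Irrational α →
  Arc α Y → D1 D Y → Y.Infinite → Yᶜ.Infinite →
  ∃ (m : ℕ) (c l : ℝ), 0 < m ∧ 0 < l ∧ l < 1 / 4 ∧
    D1 D {y : ℤ | Int.fract ((y : ℝ) * (m * α) - c) < l}

/-- Z1. Proof. Identify `y` with the point `y α` of the circle `ℝ / ℤ`; this map is injective, and every open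
arc contains infinitely many `y` (density, `Kron` or directly). Finite sets, translates `Y + q`, intersections
and complements of definable sets of integers are definable, and definability does not change if a set is
changed at finitely many integers. For `t` in the circle the membership of `y` in `Y` is constant for `y α` in a
small arc to the right of `t` (`R t`), and in a small arc to the left of `t` (`L t`), up to finitely many `y`. Let `F` be
the set of the `t` with `L t = false`, `R t = true`: a finite set (contained in `C ∪ {0}`), and not empty because `Y`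
and its complement are infinite (there are cells of both kinds). Take an integer `z` with `z α = ε` modulo `1`,
`ε > 0` small (compared with the distances of the elements of `C ∪ {0}`): up to finitely many elements
`A = Y \ (Y + z) = {y | y α ∈ F + [0, ε)}`. Let `H = {h | F + h = F}`, a finite subgroup of the circle, of order `m`, so
`H = {j / m}`. Let `F = {f 1, ..., f k}` and choose integers `q j` with `q j α = f 1 - f j + s j`, `0 ≤ s j < σ`, `σ < ε` small.
Put `O = ⋂ j, (A + q j)`. If `x ∈ O` and `u = x α - f 1` then for every `j` there is `g j ∈ F` with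
`u ∈ g j - f j + [s j, s j + ε)`; if `2 (ε + σ)` is smaller than the distances of different elements of `F - F` all
`g j - f j` are equal to one `h`, and `h + F ⊆ F`, so `h ∈ H`. Hence `O = {x | x α ∈ f 1 + H + [s, s' + ε)}`,
`s = max s j`, `s' = min s j`, up to finitely many `x`, and this is
`{x | Int.fract (x (m α) - m (f 1 + s)) < m (s' + ε - s)}`. Take `m ε < 1 / 4` (`m ≤ k`). -/
def S_Z1 : Prop := Z1

/-- Z2. From an arc to an arc which begins at `0`. -/
def Z2 : Prop := ∀ {D : (n : ℕ) → Set (Fin n → ℤ) → Prop} {β c l : ℝ}, DS D → Irrational β → 0 < l →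
  l < 1 / 4 → D1 D {y : ℤ | Int.fract ((y : ℝ) * β - c) < l} →
  ∃ a : ℝ, 0 < a ∧ a ≤ 1 / 4 ∧ D1 D {z : ℤ | 0 < Int.fract ((z : ℝ) * β) ∧ Int.fract ((z : ℝ) * β) < a}

/-- Z2. Proof. Write `O` for the given set: `y β ∈ c + [0, l)` modulo `1`. Choose integers `q1`, `q2` with
`q1 β = c + a1`, `q2 β = c + l - a` modulo `1`, where `0 < a1 < l / 4` and `0 < a < l / 4`. Then `{z | z + q1 ∈ O}` is
`z β ∈ [-a1, l - a1)` and `{z | z + q2 ∈ O}` is `z β ∈ [-l + a, a)`, so `W = {z | z + q1 ∈ O ∧ z + q2 ∈ O}` is
`z β ∈ [-a1, a)`. Choose `q` with `q β = s` modulo `1`, `l / 4 < s < l / 2`: `V = {y | y ∈ O ∧ y + q ∈ O}` is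
`y β ∈ c + [0, l - s)`. For `z ∈ W` with `z β = ε`, `-a1 ≤ ε < a`: there is `y ∈ V` with `y - z ∉ O` if and only if `ε > 0`
(`y β ∈ c + [0, ε)` for `ε > 0`; for `ε < 0` the condition `y ∈ O`, `y - z ∉ O` means
`y β ∈ c + [l - |ε|, l)`, and `|ε| ≤ a1 ≤ s`; if `ε = 0`, or just `z = 0`, there is none). So the set of the `z ∈ W`
for which such `y` exists is `{z | 0 < {z β} < a}`. It is definable (`DS.ex`, `DS.comap`, `DS.add`). -/
def S_Z2 : Prop := Z2

/-- Z3. From the small positive elements to the cyclic order. -/
def Z3 : Prop := ∀ {D : (n : ℕ) → Set (Fin n → ℤ) → Prop} {β a : ℝ}, DS D → Irrational β → 0 < a →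
  a ≤ 1 / 4 → D1 D {z : ℤ | 0 < Int.fract ((z : ℝ) * β) ∧ Int.fract ((z : ℝ) * β) < a} →
  D 3 {v | Cyc β (v 0) (v 1) (v 2)}

/-- Z3. Proof. `Pos z` means `0 < {z β} < a`. Choose integers `c 0 = 0, c 1, ..., c k` such that `{c i β}` increases
with `i` and `{c (i + 1) β} - {c i β} < a`, `1 - {c k β} < a` (density). The cell `i < k` is
`{x | {c i β} ≤ {x β} < {c (i + 1) β}} = {x | x = c i ∨ (Pos (x - c i) ∧ Pos (c (i + 1) - x))}` (two numbers in `(0, a)`
whose sum is `{c (i + 1) β} - {c i β}` modulo `1`, `2 a ≤ 1 / 2`), the last one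
`{x | x = c k ∨ (Pos (x - c k) ∧ Pos (-x))}`. `{x β} < {y β}` holds if and only if `x` is in the cell `i` and `y` in the
cell `j` with `i < j`, or both are in the same cell and `Pos (y - x)`. So the binary relation
`{x β} < {y β}` is definable, and `Cyc` is a Boolean combination of it. -/
def S_Z3 : Prop := Z3

/-- Z4. From the rotation by `m α` to the rotation by `α`. -/
def Z4 : Prop := ∀ {D : (n : ℕ) → Set (Fin n → ℤ) → Prop} {α : ℝ} {m : ℕ}, DS D → Irrational α →
  0 < m → D 3 {v | Cyc (m * α) (v 0) (v 1) (v 2)} →
  ∃ a : ℝ, 0 < a ∧ a ≤ 1 / 4 ∧ D1 D {z : ℤ | 0 < Int.fract ((z : ℝ) * α) ∧ Int.fract ((z : ℝ) * α) < a}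

/-- Z4. Proof. Let `β = m α`. Choose an integer `e` such that `{e β} = m a` with `0 < a < 1 / (16 m)` (density). The set
`{z | Cyc β 0 z e} = {z | 0 < {z β} < m a}` is definable: `z α ∈ j / m + (0, a)` modulo `1` for some `j`. For
`i = 0, ..., m - 1` choose integers `p i`, `q i` with `p i β ∈ -i α + (-1 / (4 m), -a)` and
`q i β ∈ -i α + (2 a, 1 / (4 m))` modulo `1`; the set `G i = {w | Cyc β (p i) w (q i)}` is definable: `w β` is in the short arc
from `p i β` to `q i β`. Let `A = ⋃ i < m, {m w + i | w ∈ G i}` (definable: `DS.ex`, multiplication by the fixed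
number `m` by repeated addition). If `z = m w + i ∈ A` then `z α = w β + i α` is at distance less than `1 / (4 m)` from
`0` modulo `1`. Conversely if `z α ∈ (0, a)` modulo `1`, `z = m w + i` with `0 ≤ i < m`, then `w β ∈ -i α + (0, a)`, so
`z ∈ A`. Hence `{z | 0 < {z α} < a} = A ∩ {z | Cyc β 0 z e}`. -/
def S_Z4 : Prop := Z4

/-- Z5. Tame sets of integers. -/
def Z5 : Prop := ∀ {α : ℝ} {Y : Set ℤ}, Irrational α →
  Tame (fun _ : Unit => α) (fun v : Fin 1 → ℤ => v 0 ∈ Y) →
  EP Y ∨ ∃ (N : ℕ) (r : ℤ), 0 < N ∧ Arc α {y | r + N * y ∈ Y} ∧ {y | r + N * y ∈ Y}.Infinite ∧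
    {y | r + N * y ∈ Y}ᶜ.Infinite

/-- Z5. Proof. Let the data be `N`, `L`, `F` (`Q200.CircData.Data`, `Same`). The equations `evZ l v + c = 0` with `l ≠ 0`
hold for at most one integer each; these go to the finite set `Z`; equations with `l = 0` are constant. Fix `r`
and put `x = r + N y`. `x` modulo `N` is constant. `x α = N ⌊x α / N⌋ + (N {x α / N})`, so the residue of `⌊x α⌋`
modulo `N` is `⌊N {x α / N}⌋`, and `{x α} = {N {x α / N}}`, both functions of `t = {x α / N} = {y α + r α / N}`, and this
is `{y α} + {r α / N}` or this number minus `1`, according to the position of `{y α}` with respect to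
`1 - {r α / N}`. Each sign condition for `l {x α} + c` in `F` (`l` an integer, `c` real) is a position of `{x α}` with
respect to one real number, so all data are determined by the position of `t` with respect to finitely many
numbers `(i + s) / N`, hence by the position of `{y α}` with respect to finitely many numbers (for equalities:
`{y α} = c` for a given `c` holds for at most one `y`; put it into `Z`). So `Arc α {y | r + N y ∈ Y}` for all `r`. If for
`r = 0, ..., N - 1` all these sets are finite or have finite complement, `Y` is eventually periodic with the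
period `N`. -/
def S_Z5 : Prop := Z5

/-- Z6. From one variable to several variables. -/
def Z6 : Prop := ∀ {D E : (n : ℕ) → Set (Fin n → ℤ) → Prop} {α : ℝ}, DS D → DS E → Irrational α →
  (∀ (n : ℕ) (s : Set (Fin n → ℤ)), D n s → Tame (fun _ : Unit => α) (fun v => v ∈ s)) →
  (∀ Y : Set ℤ, D1 D Y → EP Y) → ∀ (n : ℕ) (s : Set (Fin n → ℤ)), D n s → E n s

/-- Z6. Proof. First, sets defined by linear equations with integer coefficients and by congruences of the
coordinates are in every `DS` (multiplication by a fixed integer by repeated addition). Induction on `n`. `n = 0`: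
`s` is empty or everything. Let `s` be in `D (n + 1)`, with data `N`, `L`, `F`. For `(l, c) ∈ L` with `l ≠ 0`, and for the
forms `(l, c) ∈ F` with `l ≠ 0`: `evF l v + c = 0` implies `evZ l v = kk` for a fixed integer (`kk_spec`,
`ev_identity`); so there are finitely many hyperplanes `evZ l v + c = 0` (`l ≠ 0`, `c ∈ ℤ`) outside of which (call such
`v` generic) membership in `s` depends only on the residues of the `v b` and the `⌊v b α⌋` modulo `N` and on the strict
signs of the `evF l v + c` (for `l = 0` they are constant). On a hyperplane `evZ l v + c = 0`, say with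
`l b ≠ 0` for some `b`: the set `s' = {u : Fin n → ℤ | there is v ∈ s with evZ l v + c = 0 and v = u outside of b}` is in
`D n`, hence in `E n` by induction, and `s ∩ {evZ l v + c = 0} = {v | evZ l v + c = 0 ∧ v outside of b is in s'}`, because
`v b` is determined by the equation and the other coordinates. So the part of `s` on the hyperplanes is in `E`.
Claim: for generic `v`, `w` with `v b ≡ w b` modulo `N` for all `b`: `v ∈ s ↔ w ∈ s`. This finishes the proof, as
the generic part of `s` is then defined by congruences and the hyperplanes. Proof of the claim. Suppose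
`v ∈ s`, `w ∉ s`. The conditions on the position of `v` (the residues of `⌊v b α⌋` modulo `N`, the strict signs) are open
conditions for the points `v b α` of `ℝ / N ℤ` (away from the integer points; `v b α` is an integer only for `v b = 0`,
add the hyperplanes `v b = 0`). By density (for every residue class modulo `N` the points `t α` modulo `N`, `t` in the
class, are dense in `ℝ / N ℤ`) we may change `v b` and `w b` one after the other inside of their classes and
near their positions such that all mixed vectors (`w b` for `b < i`, `v b` for `b ≥ i`) are generic: each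
hyperplane excludes for a mixed vector either at most one value of the coordinate which is being chosen, or does
not contain it. Among the mixed vectors there are two consecutive ones `v'`, `w'`, which differ only in the
coordinate `b`, `v' ∈ s`, `w' ∉ s`, `v' b ≡ w' b` modulo `N`. The set `Y = {t | v' with the coordinate b replaced by t
is in s}` is `D1` (parameters), so `EP Y` by hypothesis, with a period `N1` and exceptions `Z1`. But there are
infinitely many `t ≡ v' b` modulo `N N1` with `t α` near `v' b α` in `ℝ / N ℤ` and infinitely many `t ≡ v' b` modulo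
`N N1` with `t α` near `w' b α`; outside of a finite set the former are in `Y` and the latter are not:
contradiction. -/
def S_Z6 : Prop := Z6

end Pool.Agent.H200Z
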